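import Mathlib
import Pool.Agent.H384.BohrRank

/-!
# The number of frequencies of a Bohr set in `lA - lA`, whatever its radius

For all `l, d ≥ 1`, all `ε, η > 0` and all large `N` there is a set `A ⊆ ℤ/N` with
`(2 l + η)^(-d) N ≤ |A| ≤ 2^(-d) N` such that every Bohr set of radius at least `ε` contained in `lA - lA` has at
least `d` frequencies. Here `N` is large in terms of `l, d, ε, η`; the radius `ε` may be any function of the density.
For `d = 1` and prime `N` the constant `2 l` is best possible by the Cauchy-Davenport theorem.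

The set is `A = {x : {M^i x / N} ∈ [0, β/l) for i < d}` (up to a small change at the ends), with `β` slightly smaller
than `1/2` and a large integer `M`. Then `lA - lA` lies in `S = {x : ‖M^i x / N‖ ≤ β for i < d}`. If
`B(Γ, ε) ⊆ S` and `x ∈ B(Γ, ε/k)`, then all the numbers `j M^i x / N`, `j ≤ k`, are within `β < 1/2` of integers, and
so `M^i x / N` is within `1/k` of a rational number with bounded denominator (`rational_near`). Counting by the base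
`M` digits of `x / N`, the set `B(Γ, ε/k)` has at most `(C/k)^d N` elements; it has at least `(ε/2k)^|Γ| N` elements by
the pigeonhole principle. With `k` large this gives `|Γ| ≥ d`.
-/

set_option autoImplicit false

namespace Pool.Agent.Results.MP_169871_nt.RankAnyRadius

open Pool.Agent.H384.BohrRank

/-- The Bohr set `B(Γ, ε) = {x ∈ ℤ/N : ‖γ x / N‖ ≤ ε for all γ ∈ Γ}`; the norm is the distance to the nearest
integer. -/
def bohr {N : ℕ} (Γ : Finset (ZMod N)) (ε : ℝ) : Set (ZMod N) :=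
  {x | ∀ γ ∈ Γ, |((γ * x).val : ℝ) / (N : ℝ) - ((round (((γ * x).val : ℝ) / (N : ℝ)) : ℤ) : ℝ)| ≤ ε}

/-- The set `lA - lA` of all `u_1 + … + u_l - v_1 - … - v_l` with `u_i, v_i ∈ A`. -/
def lAMinuslA {N : ℕ} (l : ℕ) (A : Finset (ZMod N)) : Set (ZMod N) :=
  {x | ∃ u v : Fin l → ZMod N, (∀ i, u i ∈ A) ∧ (∀ i, v i ∈ A) ∧ x = ∑ i, u i - ∑ i, v i}

/-- The value of a residue modulo one. -/
lemma val_eq {N : ℕ} [NeZero N] (z : ℤ) : ∃ n : ℤ, (((z : ZMod N).val : ℝ)) / (N : ℝ) = (z : ℝ) / N - n := by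
  refine ⟨z / N, ?_⟩
  have hN : (N : ℝ) ≠ 0 := Nat.cast_ne_zero.mpr (NeZero.ne N)
  have h1 : (((z : ZMod N).val : ℤ)) = z % N := by
    rw [ZMod.val_intCast]
  have h2 : z % N + N * (z / N) = z := Int.emod_add_mul_ediv z N
  have h3 : (((z : ZMod N).val : ℝ)) = (z : ℝ) - N * ((z / N : ℤ) : ℝ) := by
    have : (((z : ZMod N).val : ℤ) : ℝ) = ((z - N * (z / N) : ℤ) : ℝ) := by
      rw [h1]; congr 1; linarith
    push_cast at this
    exact this
  rw [h3]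
  field_simp

/-- A point is in the Bohr set if the products are close to integers for some representatives. -/
lemma mem_bohr_of {N : ℕ} [NeZero N] {Γ : Finset (ZMod N)} {ε : ℝ} {x : ZMod N}
    (h : ∀ γ ∈ Γ, ∃ z n : ℤ, (z : ZMod N) = γ * x ∧ |(z : ℝ) / N - n| ≤ ε) : x ∈ bohr Γ ε := by
  intro γ hγ
  obtain ⟨z, n, hz, hn⟩ := h γ hγ
  obtain ⟨n', hn'⟩ := val_eq (N := N) z
  rw [hz] at hn'
  refine (round_le _ (n - n')).trans ?_
  rw [hn']
  push_cast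
  have : (z : ℝ) / N - n' - (n - n') = (z : ℝ) / N - n := by ring
  rw [this]
  exact hn

lemma cast_val {N : ℕ} [NeZero N] (y : ZMod N) : (((y.val : ℕ) : ℤ) : ZMod N) = y := by
  push_cast
  exact ZMod.natCast_zmod_val y

/-- Multiples of a point of a Bohr set. -/
lemma mul_mem_bohr {N : ℕ} [NeZero N] {Γ : Finset (ZMod N)} {δ ε : ℝ} {x : ZMod N} (hx : x ∈ bohr Γ δ) (j : ℕ)
    (hj : j * δ ≤ ε) : (j : ZMod N) * x ∈ bohr Γ ε := by
  apply mem_bohr_of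
  intro γ hγ
  have h := hx γ hγ
  refine ⟨j * ((γ * x).val : ℤ), j * round (((γ * x).val : ℝ) / (N : ℝ)), ?_, ?_⟩
  · push_cast
    rw [ZMod.natCast_zmod_val]
    ring
  · push_cast
    have : (j : ℝ) * ((γ * x).val : ℝ) / N - j * (round (((γ * x).val : ℝ) / (N : ℝ)) : ℝ) =
        j * (((γ * x).val : ℝ) / N - (round (((γ * x).val : ℝ) / (N : ℝ)) : ℝ)) := by ring
    rw [this, abs_mul, abs_of_nonneg (Nat.cast_nonneg j)]
    exact (mul_le_mul_of_nonneg_left h (Nat.cast_nonneg j)).trans hj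

/-- The pigeonhole bound for the size of a Bohr set. -/
lemma le_card_bohr {N : ℕ} [NeZero N] (Γ : Finset (ZMod N)) (m : ℕ) (hm : 1 ≤ m) :
    N ≤ m ^ Γ.card * (bohr Γ (1 / m)).ncard := by
  classical
  have hN : (0 : ℝ) < (N : ℝ) := Nat.cast_pos.mpr (Nat.pos_of_ne_zero (NeZero.ne N))
  have hm' : (0 : ℝ) < (m : ℝ) := Nat.cast_pos.mpr hm
  have key : ∀ y : ZMod N, ⌊(m : ℝ) * ((y.val : ℝ) / N)⌋₊ < m := by
    intro y
    rw [Nat.floor_lt (by positivity)]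
    have h1 : (y.val : ℝ) / N < 1 := by
      rw [div_lt_one hN]
      exact_mod_cast ZMod.val_lt y
    calc (m : ℝ) * ((y.val : ℝ) / N) < m * 1 := by
          exact mul_lt_mul_of_pos_left h1 hm'
      _ = m := mul_one _
  let f : ZMod N → (Γ → Fin m) := fun x γ => ⟨⌊(m : ℝ) * (((γ.1 * x).val : ℝ) / N)⌋₊, key _⟩
  have hcard : (Finset.univ : Finset (Γ → Fin m)).card = m ^ Γ.card := by
    rw [Finset.card_univ, Fintype.card_fun, Fintype.card_fin, Fintype.card_coe]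
  by_contra hlt
  push Not at hlt
  have hlt' : (Finset.univ : Finset (Γ → Fin m)).card * (bohr Γ (1 / m)).ncard <
      (Finset.univ : Finset (ZMod N)).card := by
    rw [hcard, Finset.card_univ, ZMod.card]
    exact hlt
  obtain ⟨y, -, hy⟩ := Finset.exists_lt_card_fiber_of_mul_lt_card_of_maps_to
    (f := f) (fun a _ => Finset.mem_univ _) hlt'
  have hne : (Finset.univ.filter (fun x => f x = y)).Nonempty := by
    rw [← Finset.card_pos]
    omega
  obtain ⟨x0, hx0⟩ := hne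
  rw [Finset.mem_filter] at hx0
  have hsub : ((Finset.univ.filter (fun x => f x = y)).image (fun x => x - x0) : Set (ZMod N)) ⊆
      bohr Γ (1 / m) := by
    intro z hz
    rw [Finset.coe_image, Set.mem_image] at hz
    obtain ⟨x, hx, rfl⟩ := hz
    rw [Finset.mem_coe, Finset.mem_filter] at hx
    apply mem_bohr_of
    intro γ hγ
    refine ⟨((γ * x).val : ℤ) - ((γ * x0).val : ℤ), 0, ?_, ?_⟩
    · push_cast
      rw [ZMod.natCast_zmod_val, ZMod.natCast_zmod_val]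
      ring
    · have h1 : f x ⟨γ, hγ⟩ = f x0 ⟨γ, hγ⟩ := by rw [hx.2, hx0.2]
      have h2 : ⌊(m : ℝ) * (((γ * x).val : ℝ) / N)⌋₊ = ⌊(m : ℝ) * (((γ * x0).val : ℝ) / N)⌋₊ := by
        have := congrArg Fin.val h1
        exact this
      have p1 : 0 ≤ (m : ℝ) * (((γ * x).val : ℝ) / N) := by positivity
      have p2 : 0 ≤ (m : ℝ) * (((γ * x0).val : ℝ) / N) := by positivity
      have a1 := Nat.floor_le p1
      have a2 := Nat.lt_floor_add_one ((m : ℝ) * (((γ * x).val : ℝ) / N))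
      have b1 := Nat.floor_le p2
      have b2 := Nat.lt_floor_add_one ((m : ℝ) * (((γ * x0).val : ℝ) / N))
      rw [h2] at a1 a2
      have h3 : |(m : ℝ) * (((γ * x).val : ℝ) / N - ((γ * x0).val : ℝ) / N)| ≤ 1 := by
        rw [abs_le]
        constructor <;> nlinarith
      rw [abs_mul, abs_of_pos hm'] at h3
      push_cast
      rw [sub_zero, sub_div, le_div_iff₀ hm', mul_comm]
      exact h3
  have h5 : ((Finset.univ.filter (fun x => f x = y)).image (fun x => x - x0)).card ≤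
      (bohr Γ (1 / m)).ncard := by
    rw [← Set.ncard_coe_finset]
    exact Set.ncard_le_ncard hsub (Set.toFinite _)
  rw [Finset.card_image_of_injective _ (sub_left_injective)] at h5
  omega

/-- The scaled values of the points of `lA - lA` modulo one. -/
lemma near_lAMinuslA {N : ℕ} [NeZero N] {A : Finset (ZMod N)} {l : ℕ} {c : ℝ} (g : ℕ)
    (hA : ∀ u ∈ A, ∃ n : ℤ, 0 ≤ (g : ℝ) * u.val / N - n ∧ (g : ℝ) * u.val / N - n ≤ c) {x : ZMod N}
    (hx : x ∈ lAMinuslA l A) : ∃ n : ℤ, |(g : ℝ) * x.val / N - n| ≤ l * c := by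
  obtain ⟨u, v, hu, hv, rfl⟩ := hx
  choose nu hnu0 hnu1 using fun j => hA (u j) (hu j)
  choose nv hnv0 hnv1 using fun j => hA (v j) (hv j)
  obtain ⟨n', hn'⟩ := val_eq (N := N) (∑ j, ((u j).val : ℤ) - ∑ j, ((v j).val : ℤ))
  have hz : (((∑ j, ((u j).val : ℤ) - ∑ j, ((v j).val : ℤ) : ℤ)) : ZMod N) = ∑ j, u j - ∑ j, v j := by
    push_cast
    congr 1 <;> exact Finset.sum_congr rfl fun j _ => ZMod.natCast_zmod_val _
  rw [hz] at hn'
  refine ⟨(∑ j, nu j - ∑ j, nv j) - g * n', ?_⟩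
  have e1 : (g : ℝ) * ((∑ j, u j - ∑ j, v j : ZMod N).val : ℝ) / N =
      g * (((∑ j, u j - ∑ j, v j : ZMod N).val : ℝ) / N) := by ring
  rw [e1, hn']
  have e2 : (g : ℝ) * (((∑ j, ((u j).val : ℤ) - ∑ j, ((v j).val : ℤ) : ℤ) : ℝ) / N - n') -
      (((∑ j, nu j - ∑ j, nv j) - g * n' : ℤ) : ℝ) =
      ∑ j, ((g : ℝ) * (u j).val / N - nu j) - ∑ j, ((g : ℝ) * (v j).val / N - nv j) := by
    push_cast
    rw [Finset.sum_sub_distrib, Finset.sum_sub_distrib, ← Finset.sum_div, ← Finset.sum_div, ← Finset.mul_sum,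
      ← Finset.mul_sum]
    ring
  rw [e2]
  have a0 : 0 ≤ ∑ j, ((g : ℝ) * (u j).val / N - nu j) := Finset.sum_nonneg fun j _ => hnu0 j
  have b0 : 0 ≤ ∑ j, ((g : ℝ) * (v j).val / N - nv j) := Finset.sum_nonneg fun j _ => hnv0 j
  have a1 : ∑ j, ((g : ℝ) * (u j).val / N - nu j) ≤ l * c := by
    calc ∑ j, ((g : ℝ) * (u j).val / N - nu j) ≤ ∑ _j : Fin l, c := Finset.sum_le_sum fun j _ => hnu1 j
      _ = l * c := by rw [Finset.sum_const, Finset.card_univ, Fintype.card_fin, nsmul_eq_mul]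
  have b1 : ∑ j, ((g : ℝ) * (v j).val / N - nv j) ≤ l * c := by
    calc ∑ j, ((g : ℝ) * (v j).val / N - nv j) ≤ ∑ _j : Fin l, c := Finset.sum_le_sum fun j _ => hnv1 j
      _ = l * c := by rw [Finset.sum_const, Finset.card_univ, Fintype.card_fin, nsmul_eq_mul]
  rw [abs_le]
  constructor <;> linarith

/-- The number of points of a Bohr set whose multiples lie in `lA - lA`. -/
lemma card_bohr_le {N M a d l w Q k T : ℕ} [NeZero N] (hM : 1 ≤ M) (ha : a ≤ M) (hw : M ^ d * w ≤ N) (hQ : 1 ≤ Q)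
    (hβ : 1 / ((Q : ℝ) + 1) < 1 - 2 * (l * ((a : ℝ) / M))) (hk : 2 * Q ≤ k) (hT : 1 ≤ T)
    {Γ : Finset (ZMod N)} {ε : ℝ} (hε : 1 / (T : ℝ) ≤ ε) (h : bohr Γ ε ⊆ lAMinuslA l (setA M a d N w)) :
    (bohr Γ (1 / ((k * T : ℕ) : ℝ))).ncard ≤ (N / M ^ d + 1) * (dset M Q k).card ^ d := by
  classical
  have hN : 0 < N := Nat.pos_of_ne_zero (NeZero.ne N)
  set X : Finset ℕ := (Set.toFinite (bohr Γ (1 / ((k * T : ℕ) : ℝ)))).toFinset.image ZMod.val with hX
  have hcard : (bohr Γ (1 / ((k * T : ℕ) : ℝ))).ncard = X.card := by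
    rw [hX, Finset.card_image_of_injective _ (ZMod.val_injective N), Set.ncard_eq_toFinset_card _ (Set.toFinite _)]
  rw [hcard]
  apply card_le hM hN (by omega : Q < k)
  intro v hv
  rw [hX, Finset.mem_image] at hv
  obtain ⟨x, hx, rfl⟩ := hv
  rw [Set.Finite.mem_toFinset] at hx
  refine ⟨ZMod.val_lt x, fun i hi => ?_⟩
  have hkpos : (0 : ℝ) < (k : ℝ) := by
    have : 0 < k := by omega
    exact_mod_cast this
  have hTpos : (0 : ℝ) < (T : ℝ) := by exact_mod_cast hT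
  refine rational_near (β := l * ((a : ℝ) / M)) (by positivity) hQ hβ hk ?_
  intro j hj hjk
  have hmem : (j : ZMod N) * x ∈ lAMinuslA l (setA M a d N w) := by
    apply h
    apply mul_mem_bohr hx
    have hjk' : (j : ℝ) ≤ k := by exact_mod_cast hjk
    calc (j : ℝ) * (1 / ((k * T : ℕ) : ℝ)) ≤ k * (1 / ((k * T : ℕ) : ℝ)) :=
          mul_le_mul_of_nonneg_right hjk' (by positivity)
      _ = 1 / T := by push_cast; field_simp
      _ ≤ ε := hε
  obtain ⟨n, hn⟩ := near_lAMinuslA (c := (a : ℝ) / M) (M ^ i) (by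
    intro u hu
    have := near_of_cube (v := u.val) hM ha hN (mem_setA hM ha hw hu) rfl hi
    push_cast
    exact this) hmem
  obtain ⟨n', hn'⟩ := val_eq (N := N) ((j : ℤ) * (x.val : ℤ))
  have hz : (((j : ℤ) * (x.val : ℤ) : ℤ) : ZMod N) = (j : ZMod N) * x := by
    push_cast
    rw [ZMod.natCast_zmod_val]
  rw [hz] at hn'
  refine ⟨n + M ^ i * n', ?_⟩
  have e1 : (j : ℝ) * ((M : ℝ) ^ i * x.val / N) - ((n + M ^ i * n' : ℤ) : ℝ) =
      ((M ^ i : ℕ) : ℝ) * (((j : ZMod N) * x).val : ℝ) / N - n := by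
    have e2 : ((M ^ i : ℕ) : ℝ) * (((j : ZMod N) * x).val : ℝ) / N =
        ((M ^ i : ℕ) : ℝ) * ((((j : ZMod N) * x).val : ℝ) / N) := by ring
    rw [e2, hn']
    push_cast
    ring
  rw [e1]
  exact hn

/-- **Bohr sets in `lA - lA` need `log (1/α) / log (2 l + o(1))` frequencies, whatever their radius.** For all
`l, d ≥ 1` and all `ε, η > 0`, for every large `N` there is `A ⊆ ℤ/N` with
`(2 l + η)^(-d) N ≤ |A| ≤ 2^(-d) N` such that every Bohr set `B(Γ, ε') ⊆ lA - lA` with `ε' ≥ ε` has `|Γ| ≥ d`. -/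
theorem result : ∀ l d : ℕ, 1 ≤ l → 1 ≤ d → ∀ ε η : ℝ, 0 < ε → 0 < η → ∃ N₀ : ℕ, ∀ N : ℕ, N₀ ≤ N →
    ∃ A : Finset (ZMod N), 2 ^ d * A.card ≤ N ∧ (N : ℝ) ≤ (2 * (l : ℝ) + η) ^ d * (A.card : ℝ) ∧
      ∀ (Γ : Finset (ZMod N)) (ε' : ℝ), ε ≤ ε' → bohr Γ ε' ⊆ lAMinuslA l A → d ≤ Γ.card := by
  intro l d hl hd ε η hε hη
  obtain ⟨T, hTdef⟩ : ∃ T : ℕ, T = ⌈1 / ε⌉₊ := ⟨_, rfl⟩
  have hT0 : 1 / ε ≤ (T : ℝ) := by rw [hTdef]; exact Nat.le_ceil _
  have hTpos : (0 : ℝ) < (T : ℝ) := lt_of_lt_of_le (by positivity) hT0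
  have hT : 1 ≤ T := by exact_mod_cast hTpos
  have hTε : 1 / (T : ℝ) ≤ ε := by
    rw [div_le_iff₀ hTpos]
    rw [div_le_iff₀ hε] at hT0
    linarith
  obtain ⟨a₁, ha₁⟩ : ∃ a₁ : ℕ, a₁ = ⌈2 / η⌉₊ + 1 := ⟨_, rfl⟩
  have ha₁η : 2 ≤ η * a₁ := by
    have h1 : 2 / η ≤ (a₁ : ℝ) := by
      rw [ha₁]
      push_cast
      have := Nat.le_ceil (2 / η)
      linarith
    rw [div_le_iff₀ hη] at h1
    linarith
  have ha₁pos : 1 ≤ a₁ := by omega
  obtain ⟨M₁, hM₁⟩ : ∃ M₁ : ℕ, M₁ = 2 * l * a₁ + 1 := ⟨_, rfl⟩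
  have hM₁pos : 1 ≤ M₁ := by omega
  obtain ⟨K, hK⟩ : ∃ K : ℕ, K = 5 * (M₁ * (M₁ + 1)) := ⟨_, rfl⟩
  obtain ⟨k, hk⟩ : ∃ k : ℕ, k = 2 * K ^ d * T ^ (d - 1) + 1 + 2 * M₁ := ⟨_, rfl⟩
  have hkpos : 1 ≤ k := by omega
  obtain ⟨M, hM⟩ : ∃ M : ℕ, M = M₁ * k := ⟨_, rfl⟩
  obtain ⟨a, ha⟩ : ∃ a : ℕ, a = a₁ * k := ⟨_, rfl⟩
  have hkM : k ≤ M := by rw [hM]; exact Nat.le_mul_of_pos_left k hM₁pos
  have hMpos : 1 ≤ M := hkpos.trans hkM
  have h2a : 2 * a ≤ M := by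
    rw [ha, hM, ← mul_assoc]
    apply Nat.mul_le_mul_right
    rw [hM₁]
    nlinarith
  have haM : a ≤ M := by omega
  refine ⟨(M₁ + 1) * M ^ d, fun N hN => ?_⟩
  have hMd : 0 < M ^ d := Nat.pow_pos hMpos
  have hMN : M ^ d ≤ N := (Nat.le_mul_of_pos_left _ (by omega)).trans hN
  have hNpos : 0 < N := lt_of_lt_of_le hMd hMN
  have : NeZero N := ⟨hNpos.ne'⟩
  obtain ⟨w, hw⟩ : ∃ w : ℕ, w = N / M ^ d := ⟨_, rfl⟩
  have hw1 : M ^ d * w ≤ N := by rw [hw]; exact Nat.mul_div_le _ _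
  have hw2 : N < M ^ d * (w + 1) := by rw [hw]; exact Nat.lt_mul_div_succ N hMd
  have hcard := card_setA (N := N) (M := M) (a := a) (d := d) (w := w) hMpos haM hw1
  refine ⟨setA M a d N w, ?_, ?_, ?_⟩
  · rw [hcard, ← mul_assoc, ← mul_pow]
    exact (Nat.mul_le_mul_right _ (Nat.pow_le_pow_left h2a d)).trans hw1
  · rw [hcard]
    push_cast
    have e1 : ((M₁ : ℝ) + 1) * k ≤ (2 * (l : ℝ) + η) * a := by
      have h1 : (M₁ : ℝ) + 1 ≤ (2 * (l : ℝ) + η) * a₁ := by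
        rw [hM₁]
        push_cast
        linarith
      rw [ha]
      push_cast
      rw [← mul_assoc]
      exact mul_le_mul_of_nonneg_right h1 (Nat.cast_nonneg k)
    have e2 : (((M₁ : ℝ) + 1) * k) ^ d ≤ (2 * (l : ℝ) + η) ^ d * (a : ℝ) ^ d := by
      rw [← mul_pow]
      exact pow_le_pow_left₀ (by positivity) e1 d
    have e3 : ((M₁ : ℝ) + 1) * ((M₁ : ℝ) * k) ^ d ≤ M₁ * (((M₁ : ℝ) + 1) * k) ^ d := by
      obtain ⟨e, rfl⟩ : ∃ e, d = e + 1 := ⟨d - 1, by omega⟩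
      have h1 : ((M₁ : ℝ) * k) ^ e ≤ (((M₁ : ℝ) + 1) * k) ^ e :=
        pow_le_pow_left₀ (by positivity) (mul_le_mul_of_nonneg_right (by linarith) (Nat.cast_nonneg k)) e
      calc ((M₁ : ℝ) + 1) * ((M₁ : ℝ) * k) ^ (e + 1) = ((M₁ : ℝ) + 1) * M₁ * k * ((M₁ : ℝ) * k) ^ e := by ring
        _ ≤ ((M₁ : ℝ) + 1) * M₁ * k * (((M₁ : ℝ) + 1) * k) ^ e :=
            mul_le_mul_of_nonneg_left h1 (by positivity)
        _ = M₁ * (((M₁ : ℝ) + 1) * k) ^ (e + 1) := by ring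
    have hMr : (M : ℝ) = M₁ * k := by rw [hM]; push_cast; ring
    rw [← hMr] at e3
    have e4 : (N : ℝ) ≤ (M : ℝ) ^ d * (w + 1) := by exact_mod_cast hw2.le
    have e5 : ((M₁ : ℝ) + 1) * (M : ℝ) ^ d ≤ N := by exact_mod_cast hN
    have hM₁r : (0 : ℝ) < (M₁ : ℝ) := by exact_mod_cast hM₁pos
    have hwr : (0 : ℝ) ≤ (w : ℝ) := Nat.cast_nonneg w
    have e6 : (M₁ : ℝ) * N ≤ M₁ * ((2 * (l : ℝ) + η) ^ d * ((a : ℝ) ^ d * w)) := by
      calc (M₁ : ℝ) * N ≤ ((M₁ : ℝ) + 1) * (N - (M : ℝ) ^ d) := by linarith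
        _ ≤ ((M₁ : ℝ) + 1) * ((M : ℝ) ^ d * w) := by
            apply mul_le_mul_of_nonneg_left _ (by positivity)
            linarith
        _ = (((M₁ : ℝ) + 1) * (M : ℝ) ^ d) * w := by ring
        _ ≤ (M₁ * (((M₁ : ℝ) + 1) * k) ^ d) * w := mul_le_mul_of_nonneg_right e3 hwr
        _ ≤ (M₁ * ((2 * (l : ℝ) + η) ^ d * (a : ℝ) ^ d)) * w := by
            apply mul_le_mul_of_nonneg_right _ hwr
            exact mul_le_mul_of_nonneg_left e2 hM₁r.le
        _ = M₁ * ((2 * (l : ℝ) + η) ^ d * ((a : ℝ) ^ d * w)) := by ring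
    exact le_of_mul_le_mul_left e6 hM₁r
  · intro Γ ε' hε' hsub
    have hβ : 1 / ((M₁ : ℝ) + 1) < 1 - 2 * (l * ((a : ℝ) / M)) := by
      have hM₁r : (0 : ℝ) < (M₁ : ℝ) := by exact_mod_cast hM₁pos
      have hkr : (0 : ℝ) < (k : ℝ) := by exact_mod_cast hkpos
      have h1 : (a : ℝ) / M = a₁ / M₁ := by
        rw [ha, hM]
        push_cast
        field_simp
      have h2 : (M₁ : ℝ) = 2 * l * a₁ + 1 := by rw [hM₁]; push_cast; ring
      have h3 : 1 - 2 * (l * ((a : ℝ) / M)) = 1 / M₁ := by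
        rw [h1]
        field_simp
        linarith
      rw [h3]
      exact one_div_lt_one_div_of_lt hM₁r (by linarith)
    have h1 := card_bohr_le (k := k) (T := T) hMpos haM hw1 hM₁pos hβ (by omega) hT (hTε.trans hε') hsub
    have h2 := le_card_bohr Γ (k * T) (Nat.mul_pos hkpos hT)
    have h3 := card_dset (M := M) (Q := M₁) hkpos hkM
    rw [← hK] at h3
    exact rank_ge hd hMpos hMN (by omega) hT h3 (h2.trans (Nat.mul_le_mul_left _ h1))

end Pool.Agent.Results.MP_169871_nt.RankAnyRadius
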